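import Pool.Agent.Y706.BI.Stm

/-!
# Project BI, job TREE: iterated roots form a root system of the iterate
-/

namespace Pool.Agent.Y914.BI

open Pool.Agent.W277.UG Pool.Agent.W277.UH Pool.Agent.Y706.BI Finset

universe u

section
variable {Ω : Type u} [NormedField Ω]

lemma eqv_trans {X Y Z : UV Ω} (h : eqv X Y) (h' : eqv Y Z) : eqv X Z := by
  obtain ⟨s, hs⟩ := (wd_zero_iff Y.ne).mp h
  unfold eqv at h' ⊢
  rw [hs, wd_smul_left, h', mul_zero]

lemma eqv_fU_of (S : HS Ω) (X Y : UV Ω) (h : wd (S.F X.1) Y.1 = 0) : eqv (fU S X) Y := by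
  obtain ⟨t, ht, h1, _⟩ := nrm_spec (S.F X.1) (S.nz X.1 X.ne)
  have h3 : wd (t • (nrm (S.F X.1) (S.nz X.1 X.ne)).1) Y.1 = 0 := by
    rw [← h1]
    exact h
  rw [wd_smul_left] at h3
  exact (mul_eq_zero.mp h3).resolve_left ht

lemma wd_fU (S : HS Ω) (X Y : UV Ω) (h : eqv (fU S X) Y) : wd (S.F X.1) Y.1 = 0 := by
  obtain ⟨t, _, h1, _⟩ := nrm_spec (S.F X.1) (S.nz X.1 X.ne)
  rw [h1, wd_smul_left]
  have h2 : wd (nrm (S.F X.1) (S.nz X.1 X.ne)).1 Y.1 = 0 := h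
  rw [h2, mul_zero]

lemma eqv_refl (X : UV Ω) : eqv X X := wd_self _

lemma eqv_symm {X Y : UV Ω} (h : eqv X Y) : eqv Y X := by
  unfold eqv at h ⊢
  rw [wd_comm, h, neg_zero]

lemma eqv_fU (S : HS Ω) {X Y : UV Ω} (h : eqv X Y) : eqv (fU S X) (fU S Y) := by
  apply eqv_fU_of
  obtain ⟨s, hs⟩ := (wd_zero_iff Y.ne).mp h
  rw [hs, S.hom, wd_smul_left, wd_fU S Y (fU S Y) (eqv_refl _), mul_zero]

lemma eqv_iter (S : HS Ω) (n : ℕ) {X Y : UV Ω} (h : eqv X Y) :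
    eqv ((fU S)^[n] X) ((fU S)^[n] Y) := by
  induction n generalizing X Y with
  | zero => exact h
  | succ n ih =>
    rw [Function.iterate_succ, Function.comp_apply, Function.comp_apply]
    exact ih (eqv_fU S h)

lemma fU_rt (S : HS Ω) (Y : UV Ω) (l : Fin S.d) : eqv (fU S (rt S Y l)) Y := by
  apply eqv_fU_of
  obtain ⟨t, ht⟩ := HS.rs_root (rt_spec S Y) Y.2 l
  have ht' : S.F (rt S Y l).1 = t • Y.1 := ht
  rw [ht', wd_smul_left, wd_self, mul_zero]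

lemma comp_RS (S₁ S₂ : HS Ω) (b : UV Ω) (c : Ω) (θ : Fin S₁.d → UV Ω)
    (h : S₁.IsRS b.1 c (fun l => (θ l).1)) :
    (S₁.comp S₂).IsRS b.1 (c * ∏ l, (S₂.roots (θ l).1 (θ l).2).choose)
      (fun i => (rt S₂ (θ (finProdFinEquiv.symm i).1) (finProdFinEquiv.symm i).2).1) := by
  obtain ⟨hc, hη, hr, hR⟩ := h
  have hsp := fun l => rt_spec S₂ (θ l)
  refine ⟨mul_ne_zero hc (Finset.prod_ne_zero_iff.mpr fun l _ => (hsp l).1),
    fun i => (rt S₂ _ _).2, ?_, ?_⟩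
  · intro X
    change wd (S₁.F (S₂.F X)) b.1 = (c * ∏ l, (S₂.roots (θ l).1 (θ l).2).choose) *
      ∏ i : Fin (S₁.d * S₂.d),
        wd X (rt S₂ (θ (finProdFinEquiv.symm i).1) (finProdFinEquiv.symm i).2).1
    rw [hr (S₂.F X), Equiv.prod_comp finProdFinEquiv.symm (fun q => wd X (rt S₂ (θ q.1) q.2).1),
      Fintype.prod_prod_type, mul_assoc, ← Finset.prod_mul_distrib]
    congr 1
    apply Finset.prod_congr rfl
    intro l _
    exact (hsp l).2.2.1 X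
  · change ‖c * ∏ l, (S₂.roots (θ l).1 (θ l).2).choose‖ ^ (S₁.d * S₂.d) *
      ∏ i : Fin (S₁.d * S₂.d), ‖(S₁.F ∘ S₂.F)
        (rt S₂ (θ (finProdFinEquiv.symm i).1) (finProdFinEquiv.symm i).2).1‖ =
        Real.exp (-(S₂.d * S₁.Res + (S₁.d : ℝ) ^ 2 * S₂.Res))
    rw [Equiv.prod_comp finProdFinEquiv.symm
      (fun q => ‖(S₁.F ∘ S₂.F) (rt S₂ (θ q.1) q.2).1‖), Fintype.prod_prod_type]
    have h1 : ∀ l l', ‖(S₁.F ∘ S₂.F) (rt S₂ (θ l) l').1‖ =
        ‖S₂.F (rt S₂ (θ l) l').1‖ ^ S₁.d * ‖S₁.F (θ l).1‖ := by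
      intro l l'
      obtain ⟨t, ht⟩ := HS.rs_root (hsp l) (hη l) l'
      have ht' : S₂.F (rt S₂ (θ l) l').1 = t • (θ l).1 := ht
      have hn : ‖(θ l).1‖ = 1 := (θ l).2
      simp only [Function.comp_apply]
      rw [ht', S₁.hom, norm_smul, norm_smul, norm_pow, hn, mul_one]
    simp_rw [h1, Finset.prod_mul_distrib, Finset.prod_pow, Finset.prod_const, Finset.card_univ,
      Fintype.card_fin]
    rw [norm_mul, norm_prod]
    have h2 : ∏ l, (‖(S₂.roots (θ l).1 (θ l).2).choose‖ ^ S₂.d *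
        ∏ l', ‖S₂.F (rt S₂ (θ l) l').1‖) = Real.exp (-S₂.Res) ^ S₁.d := by
      rw [Finset.prod_congr rfl (fun l _ => (hsp l).2.2.2)]
      simp
    rw [Finset.prod_mul_distrib, Finset.prod_pow] at h2
    have e1 : Real.exp (-(S₂.d * S₁.Res + (S₁.d : ℝ) ^ 2 * S₂.Res)) =
        (Real.exp (-S₁.Res)) ^ S₂.d * (Real.exp (-S₂.Res) ^ S₁.d) ^ S₁.d := by
      rw [← Real.exp_nat_mul, ← Real.exp_nat_mul, ← Real.exp_nat_mul, ← Real.exp_add]
      congr 1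
      push_cast
      ring
    rw [e1, ← hR, ← h2]
    simp only [Finset.prod_pow]
    generalize (∏ l, ‖S₁.F (θ l).1‖) = A'
    generalize (∏ l, ∏ l', ‖S₂.F (rt S₂ (θ l) l').1‖) = B'
    generalize (∏ l, ‖(S₂.roots (θ l).1 (θ l).2).choose‖) = C'
    ring

lemma Av_iter_succ {X : Type*} {d : ℕ} (r : X → Fin d → X) (φ : X → ℝ) (n : ℕ) (b : X) :
    (Av r)^[n + 1] φ b = (Av r)^[n] (Av r φ) b := by
  rw [Function.iterate_succ, Function.comp_apply]

end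

theorem tree (Ω : Type u) [NormedField Ω] (S : HS Ω) (n : ℕ) : ∀ b : UV Ω,
    ∃ (c : Ω) (η : Fin (S.iter n).d → UV Ω),
    (S.iter n).IsRS b.1 c (fun l => (η l).1) ∧
    (∀ φ : UV Ω → ℝ, (Av (rt S))^[n] φ b = (∑ l, φ (η l)) / ((S.iter n).d : ℝ)) ∧
    ∀ l, eqv ((fU S)^[n] (η l)) b := by
  induction n with
  | zero =>
    intro b
    refine ⟨1, fun _ => b, ?_, ?_, ?_⟩
    · refine ⟨one_ne_zero, fun _ => b.2, ?_, ?_⟩
      · intro X
        change wd X b.1 = 1 * ∏ _l : Fin 1, wd X b.1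
        simp
      · change ‖(1 : Ω)‖ ^ 1 * ∏ _l : Fin 1, ‖b.1‖ = Real.exp (-0)
        have hb : ‖b.1‖ = 1 := b.2
        simp [hb]
    · intro φ
      change φ b = (∑ _l : Fin 1, φ b) / ((1 : ℕ) : ℝ)
      simp
    · intro l
      exact eqv_refl b
  | succ n ih =>
    intro b
    obtain ⟨c, θ, hRS, hAv, hf⟩ := ih b
    refine ⟨c * ∏ l, (S.roots (θ l).1 (θ l).2).choose,
      fun i => rt S (θ (finProdFinEquiv.symm i).1) (finProdFinEquiv.symm i).2,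
      comp_RS (S.iter n) S b c θ hRS, ?_, ?_⟩
    · intro φ
      rw [Av_iter_succ, hAv]
      change (∑ l, Av (rt S) φ (θ l)) / ((S.iter n).d : ℝ) =
        (∑ i : Fin ((S.iter n).d * S.d),
          φ (rt S (θ (finProdFinEquiv.symm i).1) (finProdFinEquiv.symm i).2)) /
          (((S.iter n).d * S.d : ℕ) : ℝ)
      rw [Equiv.sum_comp finProdFinEquiv.symm (fun q => φ (rt S (θ q.1) q.2)),
        Fintype.sum_prod_type]
      unfold Av
      rw [← Finset.sum_div, div_div]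
      congr 1
      push_cast
      ring
    · intro l
      change eqv ((fU S)^[n + 1]
        (rt S (θ (finProdFinEquiv.symm l).1) (finProdFinEquiv.symm l).2)) b
      rw [Function.iterate_succ, Function.comp_apply]
      exact eqv_trans (eqv_iter S n (fU_rt S _ _)) (hf _)

theorem t_TREE : S_TREE.{u} := by
  intro Ω _ _ _ S b n
  exact tree Ω S n b

end Pool.Agent.Y914.BI
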